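import Pool.Agent.RBt.Mat

set_option autoImplicit false

/-!
# Rota's basis conjecture: partial transversals of `n - p + 1` of the bases extend to transversal bases
-/

namespace Pool.Agent.Results.MP_fc208c_co.ExtendingTransversals

/-- **`p - 1` disjoint transversal bases with prescribed parts.**
Let `B 0, ..., B (n-1)` be pairwise disjoint bases of a matroid `M` of rank `n`, represented by vectors `v`
over a field `F`, let `p ≤ n + 1` be a prime such that `F` has characteristic `0`, `p`, or larger than
`((p - 1)!)^(p - 1)`, and let `D` be a set of at most `n - p + 1` indices.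
Let `P 0, ..., P (p-2)` be pairwise disjoint independent sets, contained in the union of the `B i`, `i ∈ D`,
each with at most one element in every `B i`.
Then there are pairwise disjoint bases `T 0, ..., T (p-2)` with `P j ⊆ T j`, each with exactly one element in
every `B i`.  (For `D = ∅`: there are `p - 1` disjoint transversal bases.) -/
theorem result {F W α : Type} [Field F] [AddCommGroup W] [Module F W] (M : Matroid α) (v : α → W)
    (hv : ∀ I ⊆ M.E, M.Indep I ↔ LinearIndepOn F v I) (n : ℕ) (B : Fin n → Set α)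
    (hB : ∀ i, M.IsBase (B i)) (hn : ∀ i, (B i).encard = (n : ℕ∞))
    (hd : ∀ i j, i ≠ j → Disjoint (B i) (B j)) (p : ℕ) (hp : p.Prime)
    (hF : ringChar F = 0 ∨ ringChar F = p ∨ (p - 1).factorial ^ (p - 1) < ringChar F)
    (D : Finset (Fin n)) (hD : D.card + p ≤ n + 1)
    (P : Fin (p - 1) → Set α) (hP : ∀ j, M.Indep (P j)) (hPd : ∀ j l, j ≠ l → Disjoint (P j) (P l))
    (hP1 : ∀ j i, (P j ∩ B i).encard ≤ 1) (hPD : ∀ j, P j ⊆ ⋃ i ∈ D, B i) :
    ∃ T : Fin (p - 1) → Set α, (∀ j, P j ⊆ T j) ∧ (∀ j, M.IsBase (T j)) ∧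
      (∀ j i, (T j ∩ B i).encard = 1) ∧ (∀ j l, j ≠ l → Disjoint (T j) (T l)) := by
  have h2 := hp.two_le
  obtain ⟨f, hf⟩ := Pool.Agent.RBt.exists_count hp hF
  exact Pool.Agent.RBt.extend_sets M v hv (by omega) hf B hB hn hd D (by omega) P hP hPd hP1 hPD

end Pool.Agent.Results.MP_fc208c_co.ExtendingTransversals
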