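import Pool.Agent.RGs.Main

set_option autoImplicit false

namespace Pool.Agent.Results.MP_fc208c_co.HighGirth

/-- Rota's basis conjecture for matroids of high girth.

`M` is a matroid of rank `n` (over any type, the ground set may be larger than the union of the bases) and
`B 0, ..., B (n-1)` are pairwise disjoint bases. Suppose every subset of the union of the `B i` with at
most `n - k` elements is independent, where `2 ^ 24 * (k + 1) ^ 2 ≤ n`. Then there are `n` pairwise
disjoint bases, each meeting every `B i` in exactly one element. -/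
theorem result (α : Type*) (M : Matroid α) (n k : ℕ) (B : Fin n → Set α)
    (hB : ∀ i, M.IsBase (B i)) (hn : ∀ i, (B i).encard = (n : ℕ∞))
    (hd : ∀ i j, i ≠ j → Disjoint (B i) (B j)) (hbig : 2 ^ 24 * (k + 1) ^ 2 ≤ n)
    (hg : ∀ X ⊆ ⋃ i, B i, X.encard + (k : ℕ∞) ≤ (n : ℕ∞) → M.Indep X) :
    ∃ T : Fin n → Set α, (∀ k, M.IsBase (T k)) ∧ (∀ k i, (T k ∩ B i).encard = 1) ∧
      (∀ k l, k ≠ l → Disjoint (T k) (T l)) :=
  RGs.rota_girth α M n k B hB hn hd hbig hg

end Pool.Agent.Results.MP_fc208c_co.HighGirth
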