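import Pool.Agent.RBt.FlagMat

set_option autoImplicit false

/-!
# Rota's basis conjecture in even rank when `n - p + 1` of the bases have a common complete flag
-/

namespace Pool.Agent.Results.MP_fc208c_co.PrimeFlag

/-- **Rota's basis conjecture when `n - p + 1` of the `n` bases have a common complete flag, `p ≤ n + 1` prime,
`n` even.**
Let `B 0, ..., B (n-1)` be pairwise disjoint bases of a matroid `M` of even rank `n`, represented by vectors
`v` over a field `F`.  Let `L 0 ⊆ L 1 ⊆ ...` be sets, `L x` of rank at most `x` (for instance a complete flag of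
flats), such that every `B i` with `i ∉ K` has exactly `x` elements in `L x` for all `x ≤ n` (the `B i` with
`i ∈ K` are arbitrary), and assume that

* there is a prime `p` with `K.card < p ≤ n + 1`, where `F` has characteristic `0`, `p`, or larger than
  `((p - 1)!)^n`, or
* `K` has at most `n / 2` elements and `F` has characteristic `0` or larger than `(n!)^n`.

Then there are `n` pairwise disjoint bases, each with exactly one element in every `B i`. -/
theorem result {F W α : Type} [Field F] [AddCommGroup W] [Module F W] (M : Matroid α) (v : α → W)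
    (hv : ∀ I ⊆ M.E, M.Indep I ↔ LinearIndepOn F v I) (n : ℕ) (he : Even n) (B : Fin n → Set α)
    (hB : ∀ i, M.IsBase (B i)) (hn : ∀ i, (B i).encard = (n : ℕ∞))
    (hd : ∀ i j, i ≠ j → Disjoint (B i) (B j)) (K : Finset (Fin n)) (L : ℕ → Set α) (hL : Monotone L)
    (hLr : ∀ x : ℕ, M.eRk (L x) ≤ (x : ℕ∞))
    (hLB : ∀ i, i ∉ K → ∀ x : ℕ, x ≤ n → (B i ∩ L x).encard = (x : ℕ∞))
    (h : (∃ p : ℕ, p.Prime ∧ K.card < p ∧ p ≤ n + 1 ∧
        (ringChar F = 0 ∨ ringChar F = p ∨ (p - 1).factorial ^ n < ringChar F)) ∨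
      (2 * K.card ≤ n ∧ (ringChar F = 0 ∨ n.factorial ^ n < ringChar F))) :
    ∃ T : Fin n → Set α, (∀ j, M.IsBase (T j)) ∧ (∀ j i, (T j ∩ B i).encard = 1) ∧
      (∀ j l, j ≠ l → Disjoint (T j) (T l)) := by
  classical
  rcases Nat.eq_zero_or_pos n with rfl | hpos
  · exact ⟨fun j => j.elim0, fun j => j.elim0, fun j => j.elim0, fun j => j.elim0⟩
  obtain ⟨c, hc1, hc2⟩ := Pool.Agent.RBt.exists_flag_enum M B hB hn K L hL hLr hLB
  have main : ∀ p : ℕ, p.Prime → K.card < p → p ≤ n + 1 →
      (ringChar F = 0 ∨ ringChar F = p ∨ (p - 1).factorial ^ n < ringChar F) →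
      ∃ T : Fin n → Set α, (∀ j, M.IsBase (T j)) ∧ (∀ j i, (T j ∩ B i).encard = 1) ∧
        (∀ j l, j ≠ l → Disjoint (T j) (T l)) := by
    intro p hp hK hpn hF
    have key : ∃ f : Fin n → Fin (p - 1) → Fin n, ((Pool.Agent.RB.Cf (p - 1) f : ℤ) : F) ≠ 0 := by
      by_cases hp2 : p = 2
      · subst hp2
        refine ⟨fun s _ => s, ?_⟩
        rw [show Pool.Agent.RB.Cf (2 - 1) (fun (s : Fin n) _ => s) = 1 from Pool.Agent.RB.Cf_one n]
        simp
      · have : Fact p.Prime := ⟨hp⟩
        obtain ⟨f, hf⟩ := Pool.Agent.RBh.OkP_all (p := p) hp2 n he (by omega)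
        refine ⟨f, ?_⟩
        rcases hF with hF | hF | hF
        · exact Pool.Agent.RBn.cast_ne f (fun h0 => hf (by rw [h0]; simp)) (Or.inl hF)
        · intro h0
          apply hf
          have h1 := (CharP.intCast_eq_zero_iff F (ringChar F) _).mp h0
          rw [hF] at h1
          rw [ZMod.intCast_zmod_eq_zero_iff_dvd]
          exact h1
        · exact Pool.Agent.RBn.cast_ne f (fun h0 => hf (by rw [h0]; simp)) (Or.inr hF)
    obtain ⟨f, hf⟩ := key
    exact Pool.Agent.RBt.flag_sets M v hv hpos (by omega) hf B hB hn hd K (by omega) c hc1 hc2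
  rcases h with ⟨p, hp, hK, hpn, hF⟩ | ⟨hK, hF⟩
  · exact main p hp hK hpn hF
  · obtain ⟨m, hm⟩ := he
    obtain ⟨p, hp, hp1, hp2⟩ := Nat.exists_prime_lt_and_le_two_mul (n / 2) (by omega)
    refine main p hp (by omega) (by omega) ?_
    rcases hF with hF | hF
    · exact Or.inl hF
    · refine Or.inr (Or.inr (lt_of_le_of_lt ?_ hF))
      exact Nat.pow_le_pow_left (Nat.factorial_le (by omega)) n

end Pool.Agent.Results.MP_fc208c_co.PrimeFlag
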